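import Pool.Agent.L0h43.TF.Stm

/-!
# Project GE, module GBL: a prime and an almost prime with sum `N`, in a class
-/

set_option autoImplicit false

namespace Pool.Agent.L0h10.GE

open Finset Filter Topology Pool.Agent.H387R2
open Pool.Agent.L0h43.TA Pool.Agent.L0h43.TB Pool.Agent.L0h43.TD Pool.Agent.L0h43.TF
open Pool.Agent.Y882 (sgs)
open Pool.Agent.Y882.KW (cond_A almost WW_le_one)

/-- the primes `n ≡ ν` with `√N < n ≤ N` -/
def Q1 (N W ν : ℕ) : Finset ℕ := (Ioc (Nat.sqrt N) N).filter (fun n => n % W = ν ∧ n.Prime)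

lemma Q1_lt {N W ν n : ℕ} (hN : Even N) (h2 : 2 ≤ Nat.sqrt N) (hn : n ∈ Q1 N W ν) : n < N := by
  unfold Q1 at hn
  rw [mem_filter, mem_Ioc] at hn
  obtain ⟨⟨h1, h3⟩, _, h4⟩ := hn
  rcases h4.eq_two_or_odd' with h5 | h5
  · omega
  · rcases Nat.lt_or_eq_of_le h3 with h6 | h6
    · exact h6
    · rw [h6] at h5
      exact absurd hN (Nat.not_even_iff_odd.2 h5)

lemma low_sumG {N w ν D : ℕ} (c Wt : ℕ → ℝ)
    (hWt : ∀ m : ℕ, m ≠ 0 → ∑ d ∈ m.divisors, c d ≤ Wt m) (hc : ∀ d, c d ≠ 0 → d ≤ D)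
    (hD : D ≤ Nat.sqrt N) (hN : Even N) (h2 : 2 ≤ Nat.sqrt N)
    (hcop : ∀ p : ℕ, p.Prime → p ∣ Uni.WW w → ¬ N ≡ ν [MOD p]) :
    ∑ d ∈ (Icc 1 D).filter (fun d => Nat.Coprime (Uni.WW w * N) d),
      c d * (((Q1 N (Uni.WW w) ν).filter (fun n => d ∣ N - n)).card : ℝ) ≤
      ∑ n ∈ Q1 N (Uni.WW w) ν, Wt (N - n) := by
  classical
  obtain ⟨F, hF⟩ : ∃ F, F = (Icc 1 D).filter (fun d => Nat.Coprime (Uni.WW w * N) d) := ⟨_, rfl⟩
  rw [← hF]
  have e1 : ∑ d ∈ F, c d * (((Q1 N (Uni.WW w) ν).filter (fun n => d ∣ N - n)).card : ℝ) =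
      ∑ n ∈ Q1 N (Uni.WW w) ν, ∑ d ∈ F, (if d ∣ N - n then c d else 0) := by
    rw [sum_comm]
    apply sum_congr rfl
    intro d _
    rw [← sum_filter, sum_const, nsmul_eq_mul, mul_comm]
  rw [e1]
  apply sum_le_sum
  intro n hn
  have hlt := Q1_lt hN h2 hn
  unfold Q1 at hn
  rw [mem_filter, mem_Ioc] at hn
  obtain ⟨⟨hn1, hn2⟩, hn3, hn4⟩ := hn
  refine le_trans (le_of_eq ?_) (hWt (N - n) (by omega))
  rw [← sum_filter]
  apply sum_subset
  · intro d hd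
    rw [mem_filter] at hd
    rw [Nat.mem_divisors]
    exact ⟨hd.2, by omega⟩
  · intro d hd hd2
    by_contra hcd
    apply hd2
    have hdn := Nat.dvd_of_mem_divisors hd
    have hd0 : 0 < d := Nat.pos_of_mem_divisors hd
    rw [mem_filter, hF, mem_filter, mem_Icc]
    refine ⟨⟨⟨hd0, hc d hcd⟩, ?_⟩, hdn⟩
    rw [Nat.coprime_iff_gcd_eq_one]
    by_contra hne
    obtain ⟨p, hp, hpd⟩ := Nat.exists_prime_and_dvd hne
    have h1 : p ∣ Uni.WW w * N := hpd.trans (Nat.gcd_dvd_left _ _)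
    have h3 : p ∣ N - n := (hpd.trans (Nat.gcd_dvd_right _ _)).trans hdn
    have h4 : n ≡ N [MOD p] := (Nat.modEq_iff_dvd' hn2).2 h3
    rcases (hp.dvd_mul).1 h1 with h5 | h5
    · refine hcop p hp h5 (h4.symm.trans ?_)
      have h6 : n ≡ ν [MOD Uni.WW w] := by
        unfold Nat.ModEq
        rw [← hn3, Nat.mod_mod]
      exact h6.of_dvd h5
    · have h6 : p ∣ n := (Nat.modEq_zero_iff_dvd.1 (h4.trans (Nat.modEq_zero_iff_dvd.2 h5)))
      rw [Nat.prime_dvd_prime_iff_eq hp hn4] at h6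
      have h7 := Nat.le_of_dvd hd0 (hpd.trans (Nat.gcd_dvd_right _ _))
      have h8 := hc d hcd
      omega

lemma count_cls {N W ν d : ℕ} (hW : 0 < W) (hν : ν < W) (hcop : Nat.Coprime W ν) (hd : Nat.Coprime (W * N) d) :
    ∃ c' : ℕ, c'.Coprime (W * d) ∧
      |(((Q1 N W ν).filter (fun n => d ∣ N - n)).card : ℝ) - H343E.piAP N (W * d) c'| ≤ (Nat.sqrt N : ℝ) := by
  classical
  have hWd : Nat.Coprime W d := Nat.Coprime.coprime_mul_right hd
  have hNd : Nat.Coprime N d := Nat.Coprime.coprime_mul_left hd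
  obtain ⟨c', hc1, hc2⟩ := Nat.chineseRemainder hWd ν N
  refine ⟨c', ?_, ?_⟩
  · apply Nat.Coprime.mul_right
    · unfold Nat.Coprime
      rw [hc1.gcd_eq]
      exact (Nat.coprime_comm.1 hcop)
    · unfold Nat.Coprime
      rw [hc2.gcd_eq]
      exact hNd
  · obtain ⟨A, hA⟩ : ∃ A, A = (Q1 N W ν).filter (fun n => d ∣ N - n) := ⟨_, rfl⟩
    obtain ⟨B, hB⟩ : ∃ B, B = (Icc 1 N).filter (fun p => p.Prime ∧ p ≡ c' [MOD W * d]) := ⟨_, rfl⟩
    have e : H343E.piAP N (W * d) c' = (B.card : ℝ) := by rw [hB]; rfl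
    rw [← hA, e]
    have h1 : A ⊆ B := by
      intro n hn
      rw [hA, mem_filter] at hn
      unfold Q1 at hn
      rw [mem_filter, mem_Ioc] at hn
      obtain ⟨⟨⟨b1, b2⟩, b3, b4⟩, b5⟩ := hn
      rw [hB, mem_filter, mem_Icc]
      refine ⟨⟨by omega, b2⟩, b4, ?_⟩
      apply (Nat.modEq_and_modEq_iff_modEq_mul hWd).1
      constructor
      · refine Nat.ModEq.trans ?_ hc1.symm
        unfold Nat.ModEq
        rw [← b3, Nat.mod_mod]
      · exact ((Nat.modEq_iff_dvd' b2).2 b5).trans hc2.symm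
    have h2 : B ⊆ A ∪ Icc 1 (Nat.sqrt N) := by
      intro n hn
      rw [hB, mem_filter, mem_Icc] at hn
      obtain ⟨⟨b1, b2⟩, b3, b4⟩ := hn
      rw [mem_union, mem_Icc]
      by_cases h3 : Nat.sqrt N < n
      · left
        obtain ⟨b5, b6⟩ := (Nat.modEq_and_modEq_iff_modEq_mul hWd).2 b4
        rw [hA, mem_filter]
        unfold Q1
        rw [mem_filter, mem_Ioc]
        refine ⟨⟨⟨h3, b2⟩, ?_, b3⟩, ?_⟩
        · have := b5.trans hc1
          unfold Nat.ModEq at this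
          rw [this, Nat.mod_eq_of_lt hν]
        · exact (Nat.modEq_iff_dvd' b2).1 (b6.trans hc2)
      · right
        omega
    have h3 : B.card ≤ A.card + Nat.sqrt N := by
      refine (card_le_card h2).trans ((card_union_le _ _).trans ?_)
      rw [Nat.card_Icc, Nat.add_sub_cancel]
    have h1' : (A.card : ℝ) ≤ B.card := by exact_mod_cast card_le_card h1
    have h3' : (B.card : ℝ) ≤ A.card + Nat.sqrt N := by exact_mod_cast h3
    rw [abs_le]
    constructor <;> linarith [Nat.cast_nonneg (α := ℝ) (Nat.sqrt N)]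

/-- the lower bound with the theorem of Bombieri and Vinogradov -/
lemma low_mainG {N w ν D : ℕ} {Lam : ℝ} (c M : ℕ → ℝ) (hM : ∀ q, 0 ≤ M q) (hLam : ∀ d, |c d| ≤ Lam)
    (hν : ν < Uni.WW w) (hcop : Nat.Coprime (Uni.WW w) ν)
    (hMd : ∀ d c' : ℕ, 0 < d → d ≤ D → c'.Coprime (Uni.WW w * d) →
      |H343E.piAP N (Uni.WW w * d) c' - H343E.pi1 N / Nat.totient (Uni.WW w * d)| ≤ M (Uni.WW w * d))
    (hDx : ∀ d : ℕ, d ≤ D → Uni.WW w * d ≤ N) :
    H343E.pi1 N / Nat.totient (Uni.WW w) * ∑ d ∈ (Icc 1 D).filter (fun d => Nat.Coprime (Uni.WW w * N) d),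
      c d * (1 / (Nat.totient d : ℝ)) - Lam * (∑ e ∈ Icc 1 N, M e + D * Nat.sqrt N) ≤
    ∑ d ∈ (Icc 1 D).filter (fun d => Nat.Coprime (Uni.WW w * N) d),
      c d * (((Q1 N (Uni.WW w) ν).filter (fun n => d ∣ N - n)).card : ℝ) := by
  classical
  obtain ⟨W, hW⟩ : ∃ W, W = Uni.WW w := ⟨_, rfl⟩
  have hWpos : 0 < W := by rw [hW]; exact Uni.WW_pos w
  rw [← hW] at hν hcop hMd hDx ⊢
  have hLam0 : 0 ≤ Lam := (abs_nonneg _).trans (hLam 0)
  obtain ⟨F, hF⟩ : ∃ F, F = (Icc 1 D).filter (fun d => Nat.Coprime (W * N) d) := ⟨_, rfl⟩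
  rw [← hF]
  obtain ⟨X, hX⟩ : ∃ X, X = H343E.pi1 N / Nat.totient W := ⟨_, rfl⟩
  rw [← hX]
  have h1 : ∀ d ∈ F, X * (c d * (1 / (Nat.totient d : ℝ))) - Lam * (M (W * d) + Nat.sqrt N) ≤
      c d * (((Q1 N W ν).filter (fun n => d ∣ N - n)).card : ℝ) := by
    intro d hd
    rw [hF, mem_filter, mem_Icc] at hd
    obtain ⟨c', hc1, hc2⟩ := count_cls hWpos hν hcop hd.2
    have h3 := hMd d c' (by omega) hd.1.2 hc1
    have hWd : Nat.Coprime W d := Nat.Coprime.coprime_mul_right hd.2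
    obtain ⟨Bd, hBd⟩ : ∃ Bd : ℝ, Bd = (((Q1 N W ν).filter (fun n => d ∣ N - n)).card : ℝ) := ⟨_, rfl⟩
    rw [← hBd] at hc2 ⊢
    have e1 : H343E.pi1 N / Nat.totient (W * d) = X * (1 / (Nat.totient d : ℝ)) := by
      rw [Nat.totient_mul hWd, hX]
      push_cast
      rw [div_mul_div_comm, mul_one]
    rw [e1] at h3
    have h5 : |Bd - X * (1 / (Nat.totient d : ℝ))| ≤ M (W * d) + Nat.sqrt N := by
      have h6 := abs_add_le (Bd - H343E.piAP N (W * d) c') (H343E.piAP N (W * d) c' - X * (1 / (Nat.totient d : ℝ)))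
      rw [sub_add_sub_cancel] at h6
      linarith
    have h6 : |c d * (Bd - X * (1 / (Nat.totient d : ℝ)))| ≤ Lam * (M (W * d) + Nat.sqrt N) := by
      rw [abs_mul]
      exact mul_le_mul (hLam d) h5 (abs_nonneg _) hLam0
    have h7 := (abs_le.1 h6).1
    have e2 : c d * (Bd - X * (1 / (Nat.totient d : ℝ))) = c d * Bd - X * (c d * (1 / (Nat.totient d : ℝ))) := by
      ring
    rw [e2] at h7
    linarith
  have h2 := sum_le_sum h1
  rw [sum_sub_distrib, ← mul_sum, ← mul_sum, sum_add_distrib, sum_const, nsmul_eq_mul] at h2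
  refine le_trans ?_ h2
  apply sub_le_sub_left
  apply mul_le_mul_of_nonneg_left _ hLam0
  apply add_le_add
  · have e2 : ∑ d ∈ F, M (W * d) = ∑ e ∈ F.image (fun d => W * d), M e := by
      rw [sum_image]
      intro x _ y _ hxy
      exact Nat.eq_of_mul_eq_mul_left hWpos hxy
    rw [e2]
    apply sum_le_sum_of_subset_of_nonneg
    · intro e he
      obtain ⟨d, hd, rfl⟩ := mem_image.1 he
      rw [hF, mem_filter, mem_Icc] at hd
      rw [mem_Icc]
      exact ⟨Nat.mul_pos hWpos hd.1.1, hDx d hd.1.2⟩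
    · intro e _ _
      exact hM e
  · apply mul_le_mul_of_nonneg_right _ (by positivity)
    have : F.card ≤ D := by
      rw [hF]
      refine (card_filter_le _ _).trans ?_
      rw [Nat.card_Icc]
      omega
    exact_mod_cast this

lemma Xpow {W N : ℕ} (hW : 1 ≤ W) {s : ℝ} (hs1 : s ≤ 1) : ((W * N : ℕ) : ℝ) ^ s ≤ W * (N : ℝ) ^ s := by
  push_cast
  have hWR : (1 : ℝ) ≤ W := by exact_mod_cast hW
  rw [Real.mul_rpow (by positivity) (by positivity)]
  apply mul_le_mul_of_nonneg_right _ (by positivity)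
  calc (W : ℝ) ^ s ≤ (W : ℝ) ^ (1 : ℝ) := Real.rpow_le_rpow_of_exponent_le hWR hs1
    _ = W := Real.rpow_one _

theorem rawG : ∃ c0 : ℝ, 0 < c0 ∧ ∀ w : ℕ, 2 ≤ w → ∃ N₀ : ℕ, ∀ N : ℕ, N₀ ≤ N → Even N → ∀ ν : ℕ,
    ν < Uni.WW w → Nat.Coprime (Uni.WW w) ν → (∀ p : ℕ, p.Prime → p ∣ Uni.WW w → ¬ N ≡ ν [MOD p]) →
      H343E.pi1 N / Nat.totient (Uni.WW w) * (c0 / Real.log N *
        (((Uni.WW w * N : ℕ) : ℝ) / Nat.totient (Uni.WW w * N))) - 20 * (N / Real.log N ^ 3) ≤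
        ((GP N (Uni.WW w) ν).card : ℝ) := by
  classical
  have hJ := cond_A (12 / 25) (8 / 9) (by norm_num) (by norm_num) (by norm_num)
  rw [show (12 / 25 / 4 : ℝ) = 3 / 25 by norm_num, show (24 / 25 * (12 / 25) : ℝ) = 288 / 625 by norm_num] at hJ
  obtain ⟨c0, hc0, Y0, HW⟩ := Pool.Agent.Y882.GW.wts (12 / 25) (3 / 25) (288 / 625) (8 / 9) (8 / 9 / (288 / 625)) (49 / 100)
    (by norm_num) (by norm_num) (by norm_num) (by norm_num) (by norm_num) (by norm_num) (by norm_num) (by norm_num)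
    (by norm_num) hJ (by norm_num)
  refine ⟨c0 / 4, by positivity, fun w hw2 => ?_⟩
  obtain ⟨W, hW⟩ : ∃ W, W = Uni.WW w := ⟨_, rfl⟩
  have hWpos : 0 < W := by rw [hW]; exact Uni.WW_pos w
  have hW1 : 1 ≤ W := hWpos
  have hW0 : (0 : ℝ) < W := by exact_mod_cast hWpos
  have hW1R : (1 : ℝ) ≤ W := by exact_mod_cast hW1
  obtain ⟨B, x0, hB⟩ := Pool.Agent.H96R2.EQP.weighted 1 le_rfl 4
  have tN : Tendsto (fun N : ℕ => (N : ℝ)) atTop atTop := tendsto_natCast_atTop_atTop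
  obtain ⟨N₀, hN₀⟩ := eventually_atTop.1 ((tN.eventually (ev_logpow (W ^ 2 * W * 2) (B : ℝ) (2 / 100) (by norm_num))).and
    ((tN.eventually (ev_logpow (2 * W) 0 (1 / 100) (by norm_num))).and
    ((tN.eventually (ev_logpow W 0 (9 / 1000) (by norm_num))).and
    ((tN.eventually (ev_logpow (10 * W + 4) 4 (1 / 100) (by norm_num))).and
    ((tN.eventually (ev_logpow W 0 1 (by norm_num))).and
    ((tN.eventually (ev_logpow 4 0 (3 / 25) (by norm_num))).and
    ((tN.eventually (Real.tendsto_log_atTop.eventually_ge_atTop 1)).and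
    (eventually_ge_atTop (max (max x0 Y0) 81)))))))))
  rw [← hW]
  refine ⟨N₀, fun N hN hNe ν hν hcopν hcls => ?_⟩
  obtain ⟨g1, g2, g3, g4, g5, g6, g7, g8⟩ := hN₀ N hN
  have hNx0 : x0 ≤ N := ((le_max_left _ _).trans (le_max_left _ _)).trans g8
  have hNY0 : Y0 ≤ N := ((le_max_right _ _).trans (le_max_left _ _)).trans g8
  have hN81 : 81 ≤ N := (le_max_right _ _).trans g8
  set L := Real.log (N : ℝ) with hL
  have hL0 : 0 < L := by linarith
  have hN81R : (81 : ℝ) ≤ N := by exact_mod_cast hN81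
  have hN0 : (0 : ℝ) < N := by linarith
  have hN1 : (1 : ℝ) ≤ N := by linarith
  rw [Real.rpow_zero, mul_one] at g2 g3 g5 g6
  rw [Real.rpow_one] at g5
  obtain ⟨X, hX⟩ : ∃ X, X = W * N := ⟨_, rfl⟩
  have hXR : (X : ℝ) = W * N := by rw [hX]; push_cast; ring
  have hNX : N ≤ X := by rw [hX]; exact Nat.le_mul_of_pos_left N hWpos
  have hNXR : (N : ℝ) ≤ X := by exact_mod_cast hNX
  have hX0 : (0 : ℝ) < X := by linarith
  have hlogX1 : L ≤ Real.log X := Real.log_le_log hN0 hNXR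
  have hlogX : Real.log X ≤ 2 * L := by
    have h1 : (X : ℝ) ≤ (N : ℝ) ^ 2 := by rw [hXR]; nlinarith
    calc Real.log X ≤ Real.log ((N : ℝ) ^ 2) := Real.log_le_log hX0 h1
      _ = 2 * L := by rw [Real.log_pow, ← hL]; norm_num
  have hXe : Even X := by rw [hX]; exact hNe.mul_left _
  have hX1 : 1 ≤ X := by omega
  have hhalf : (N : ℝ) ^ (1 / 2 : ℝ) * (N : ℝ) ^ (1 / 2 : ℝ) = N := by
    rw [← Real.rpow_add hN0]; norm_num
  have hhalf9 : (9 : ℝ) ≤ (N : ℝ) ^ (1 / 2 : ℝ) := by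
    calc (9 : ℝ) = (81 : ℝ) ^ (1 / 2 : ℝ) := by
          rw [show (81 : ℝ) = 9 ^ (2 : ℝ) by norm_num, ← Real.rpow_mul (by norm_num)]
          norm_num
      _ ≤ _ := Real.rpow_le_rpow (by norm_num) hN81R (by norm_num)
  have hsq : (Nat.sqrt N : ℝ) ≤ (N : ℝ) ^ (1 / 2 : ℝ) := by
    rw [← Real.sqrt_eq_rpow]
    exact Real.nat_sqrt_le_real_sqrt
  have hsq2 : (N : ℝ) ^ (1 / 2 : ℝ) - 1 ≤ (Nat.sqrt N : ℝ) := by
    have h1 : √(N : ℝ) < Nat.sqrt N + 1 := Real.real_sqrt_lt_nat_sqrt_succ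
    rw [Real.sqrt_eq_rpow] at h1
    linarith
  have hsq3 : 2 ≤ Nat.sqrt N := by
    have : (2 : ℝ) ≤ (Nat.sqrt N : ℝ) := by linarith
    exact_mod_cast this
  -- the weights
  obtain ⟨c, hcL, hcD, hcW, hcM⟩ := HW X (hNY0.trans hNX)
  have hmainc := hcM X hX1 (by omega) hXe
  obtain ⟨D, hD⟩ : ∃ D, D = ⌊(X : ℝ) ^ (49 / 100 : ℝ)⌋₊ := ⟨_, rfl⟩
  rw [← hD] at hmainc
  have hDX : (D : ℝ) ≤ (X : ℝ) ^ (49 / 100 : ℝ) := by rw [hD]; exact Nat.floor_le (by positivity)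
  have hDR : (D : ℝ) ≤ W * (N : ℝ) ^ (49 / 100 : ℝ) := by
    refine hDX.trans ?_
    rw [hX]
    exact Xpow hW1 (by norm_num)
  have hcD' : ∀ d, c d ≠ 0 → d ≤ D := by
    intro d hd
    obtain ⟨_, h2⟩ := hcD d hd
    rw [hD]
    exact Nat.le_floor h2
  have hDsq' : 2 * (D : ℝ) ≤ (N : ℝ) ^ (1 / 2 : ℝ) := by
    calc 2 * (D : ℝ) ≤ (2 * W) * (N : ℝ) ^ (49 / 100 : ℝ) := by linarith
      _ ≤ (N : ℝ) ^ (1 / 100 : ℝ) * (N : ℝ) ^ (49 / 100 : ℝ) := mul_le_mul_of_nonneg_right g2 (by positivity)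
      _ = (N : ℝ) ^ (1 / 2 : ℝ) := by rw [← Real.rpow_add hN0]; norm_num
  have hDsq : D ≤ Nat.sqrt N := by
    have : (D : ℝ) ≤ (Nat.sqrt N : ℝ) := by linarith
    exact_mod_cast this
  -- the moduli
  obtain ⟨M, hM0, hM1, hM2⟩ := hB N hNx0
  simp only [one_pow, one_mul] at hM2
  have hmod : ∀ d : ℕ, d ≤ D → W * d ≤ N ∧ Real.log N ^ B * ((W * d : ℕ) : ℝ) ^ 2 < N := by
    intro d hd'
    have hd : (d : ℝ) ≤ W * (N : ℝ) ^ (49 / 100 : ℝ) := (show (d : ℝ) ≤ D by exact_mod_cast hd').trans hDR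
    have hd2 : (d : ℝ) ≤ (X : ℝ) ^ (49 / 100 : ℝ) := (show (d : ℝ) ≤ D by exact_mod_cast hd').trans hDX
    constructor
    · have h1 : ((W * d : ℕ) : ℝ) ≤ N := by
        push_cast
        have h3 : (d : ℝ) ≤ (N : ℝ) ^ (1 / 2 : ℝ) := by
          have : (d : ℝ) ≤ D := by exact_mod_cast hd'
          linarith [Nat.cast_nonneg (α := ℝ) D]
        have h4 : (W : ℝ) ≤ (N : ℝ) ^ (1 / 2 : ℝ) := by
          refine g3.trans (Real.rpow_le_rpow_of_exponent_le hN1 (by norm_num))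
        calc (W : ℝ) * d ≤ (N : ℝ) ^ (1 / 2 : ℝ) * (N : ℝ) ^ (1 / 2 : ℝ) :=
              mul_le_mul h4 h3 (Nat.cast_nonneg _) (by linarith)
          _ = N := hhalf
      exact_mod_cast h1
    · have h2 : ((W * d : ℕ) : ℝ) ^ 2 ≤ W ^ 2 * (W * (N : ℝ) ^ (98 / 100 : ℝ)) := by
        push_cast
        rw [mul_pow]
        apply mul_le_mul_of_nonneg_left _ (by positivity)
        calc (d : ℝ) ^ 2 ≤ ((X : ℝ) ^ (49 / 100 : ℝ)) ^ 2 :=
              pow_le_pow_left₀ (Nat.cast_nonneg _) hd2 2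
          _ = (X : ℝ) ^ (98 / 100 : ℝ) := by
            rw [← Real.rpow_natCast, ← Real.rpow_mul hX0.le]
            congr 1
            norm_num
          _ ≤ W * (N : ℝ) ^ (98 / 100 : ℝ) := by
            rw [hX]
            exact Xpow hW1 (by norm_num)
      have h3 : (N : ℝ) ^ (98 / 100 : ℝ) * (N : ℝ) ^ (2 / 100 : ℝ) = N := by
        rw [← Real.rpow_add hN0]; norm_num
      have h4 : 0 < (N : ℝ) ^ (98 / 100 : ℝ) := by positivity
      rw [Real.rpow_natCast] at g1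
      have h5 : 0 < (W : ℝ) ^ 2 * W * L ^ B * (N : ℝ) ^ (98 / 100 : ℝ) := by positivity
      calc Real.log N ^ B * ((W * d : ℕ) : ℝ) ^ 2 ≤ L ^ B * (W ^ 2 * (W * (N : ℝ) ^ (98 / 100 : ℝ))) :=
            mul_le_mul_of_nonneg_left h2 (by positivity)
        _ = (W : ℝ) ^ 2 * W * L ^ B * (N : ℝ) ^ (98 / 100 : ℝ) := by ring
        _ < (W : ℝ) ^ 2 * W * 2 * L ^ B * (N : ℝ) ^ (98 / 100 : ℝ) := by linarith
        _ ≤ (N : ℝ) ^ (2 / 100 : ℝ) * (N : ℝ) ^ (98 / 100 : ℝ) := mul_le_mul_of_nonneg_right g1 h4.le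
        _ = N := by rw [mul_comm, h3]
  rw [hW] at hν hcopν hmod hcls
  have hlow := low_mainG (N := N) (w := w) (ν := ν) (D := D) (Lam := 5 * Real.log X) c M hM0 hcL hν hcopν
    (fun d c' hd0 hdD hc' => hM1 _ c' (Nat.mul_pos (Uni.WW_pos w) hd0) hc' (hmod d hdD).2 (hmod d hdD).1)
    (fun d hdD => (hmod d hdD).1)
  have hsum := low_sumG (N := N) (w := w) (ν := ν) (D := D) c
    (fun m => Pool.Agent.Y882.KW.WW X (3 / 25) (288 / 625) (8 / 9) (8 / 9 / (288 / 625)) m)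
    (fun m hm => hcW m hm) hcD' hDsq hNe hsq3 hcls
  rw [← hW] at hlow hsum
  rw [hX] at hmainc
  rw [← hX] at hlow hsum ⊢
  rw [← hX] at hmainc
  -- detection
  obtain ⟨P, hP⟩ : ∃ P, P = Q1 N W ν := ⟨_, rfl⟩
  rw [← hP] at hlow hsum
  have hdet : ∑ n ∈ P, Pool.Agent.Y882.KW.WW X (3 / 25) (288 / 625) (8 / 9) (8 / 9 / (288 / 625)) (N - n) ≤
      ((GP N W ν).card : ℝ) + (1 + 3 * (N : ℝ) ^ (22 / 25 : ℝ)) := by
    have h1 : ∀ n ∈ P, Pool.Agent.Y882.KW.WW X (3 / 25) (288 / 625) (8 / 9) (8 / 9 / (288 / 625)) (N - n) ≤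
        if 0 < Pool.Agent.Y882.KW.WW X (3 / 25) (288 / 625) (8 / 9) (8 / 9 / (288 / 625)) (N - n) then 1 else 0 := by
      intro n _
      split_ifs with h
      · exact WW_le_one X _ _ _ _ (by norm_num) (by norm_num) _
      · linarith
    refine (sum_le_sum h1).trans ?_
    rw [sum_boole]
    have h2 : P.filter (fun n => 0 < Pool.Agent.Y882.KW.WW X (3 / 25) (288 / 625) (8 / 9) (8 / 9 / (288 / 625)) (N - n)) ⊆
        GP N W ν ∪ ({N - 1} ∪ ((Ioc 0 N).filter (fun m => SQ N (m + 0))).image (fun m => N - m)) := by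
      intro n hn
      rw [mem_filter] at hn
      obtain ⟨hn1, hn2⟩ := hn
      have hlt : n < N := by
        rw [hP] at hn1
        exact Q1_lt hNe hsq3 hn1
      rw [hP] at hn1
      unfold Q1 at hn1
      rw [mem_filter, mem_Ioc] at hn1
      rw [mem_union, mem_union, mem_singleton, mem_image]
      by_cases hs : SQ N (N - n)
      · right; right
        refine ⟨N - n, ?_, by omega⟩
        rw [mem_filter, mem_Ioc]
        exact ⟨⟨by omega, by omega⟩, hs⟩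
      · by_cases hone : N - n = 1
        · right; left; omega
        left
        unfold GP
        rw [mem_filter, mem_Ioc]
        refine ⟨hn1.1, hn1.2.1, hn1.2.2, by omega, ?_⟩
        have hal := almost X (by omega) (3 / 25) (288 / 625) (8 / 9) (11 / 10) 3 (by norm_num) (by norm_num) (by norm_num)
          (by norm_num) (by norm_num) (N - n) (by omega) ?_ hn2 ?_
        · refine ⟨hal.1, fun p hp hpd => le_trans ?_ (hal.2 p hp hpd)⟩
          exact Real.rpow_le_rpow hN0.le hNXR (by norm_num)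
        · have h3 : ((N - n : ℕ) : ℝ) ≤ X := by
            have : N - n ≤ X := by omega
            exact_mod_cast this
          refine h3.trans ?_
          have hX1R : (1 : ℝ) ≤ X := by linarith
          calc (X : ℝ) = (X : ℝ) ^ (1 : ℝ) := (Real.rpow_one _).symm
            _ ≤ (X : ℝ) ^ (11 / 10 : ℝ) := Real.rpow_le_rpow_of_exponent_le hX1R (by norm_num)
        · intro p hp hpd
          apply hs
          unfold Pool.Agent.W23.DC.pr at hp
          rw [mem_filter, mem_Icc] at hp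
          refine ⟨p, hp.2.1, ?_, ?_, hpd⟩
          · by_contra hlt2
            push Not at hlt2
            have h6 : (p : ℝ) < (X : ℝ) ^ (3 / 25 : ℝ) :=
              lt_of_lt_of_le hlt2 (Real.rpow_le_rpow hN0.le hNXR (by norm_num))
            have := (Pool.Agent.Y882.tt_lt X p (3 / 25) (by omega) hp.2.1.pos).2 h6
            linarith [hp.2.2.1]
          · have h4 := (Pool.Agent.Y882.tt_lt X p (288 / 625) (by omega) hp.2.1.pos).1 hp.2.2.2
            refine h4.trans_le ?_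
            rw [hX]
            refine (Xpow hW1 (by norm_num)).trans ?_
            calc (W : ℝ) * (N : ℝ) ^ (288 / 625 : ℝ) ≤ (N : ℝ) ^ (9 / 1000 : ℝ) * (N : ℝ) ^ (288 / 625 : ℝ) :=
                  mul_le_mul_of_nonneg_right g3 (by positivity)
              _ = (N : ℝ) ^ (9 / 1000 + 288 / 625 : ℝ) := by rw [← Real.rpow_add hN0]
              _ ≤ _ := Real.rpow_le_rpow_of_exponent_le hN1 (by norm_num)
    have h3 := (card_le_card h2).trans ((card_union_le _ _).trans (Nat.add_le_add_left ((card_union_le _ _).trans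
      (Nat.add_le_add_left card_image_le _)) _))
    rw [card_singleton] at h3
    have h4 : ((P.filter (fun n => 0 < Pool.Agent.Y882.KW.WW X (3 / 25) (288 / 625) (8 / 9) (8 / 9 / (288 / 625)) (N - n))).card : ℝ) ≤
        ((GP N W ν).card : ℝ) + (1 + (((Ioc 0 N).filter (fun m => SQ N (m + 0))).card : ℝ)) := by exact_mod_cast h3
    have h5 := sq_few (N := N) (by omega) g6 0
    linarith
  -- the errors
  have hmass0 : 0 ≤ H343E.pi1 N / Nat.totient W := by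
    unfold H343E.pi1
    positivity
  have hsg := sgs_low (q := X) hX1 hXe
  have hQ0 : 0 ≤ ((X : ℕ) : ℝ) / Nat.totient X := by positivity
  have hlX0 : 0 < Real.log X := by linarith
  have hm : H343E.pi1 N / Nat.totient W * (c0 / 4 / L * ((X : ℝ) / Nat.totient X)) ≤
      H343E.pi1 N / Nat.totient W * ∑ d ∈ (Icc 1 D).filter (fun d => Nat.Coprime X d),
        c d * (1 / (Nat.totient d : ℝ)) := by
    apply mul_le_mul_of_nonneg_left _ hmass0
    refine le_trans ?_ hmainc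
    calc c0 / 4 / L * ((X : ℝ) / Nat.totient X) = c0 / (2 * L) * (1 / 2 * ((X : ℝ) / Nat.totient X)) := by
          field_simp
          ring
      _ ≤ c0 / Real.log X * (1 / 2 * ((X : ℝ) / Nat.totient X)) := by
          apply mul_le_mul_of_nonneg_right _ (by positivity)
          exact div_le_div_of_nonneg_left hc0.le hlX0 hlogX
      _ ≤ _ := mul_le_mul_of_nonneg_left hsg (by positivity)
  have he1 : 5 * Real.log X * ∑ e ∈ Icc 1 N, M e ≤ 10 * (N / L ^ 3) := by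
    calc 5 * Real.log X * ∑ e ∈ Icc 1 N, M e ≤ 5 * (2 * L) * (N / L ^ 4) := by
          apply mul_le_mul (by linarith) hM2 (sum_nonneg fun e _ => hM0 e) (by positivity)
      _ = 10 * (N / L ^ 3) := by
          field_simp
          norm_num
  have he2 : 5 * Real.log X * (D * Nat.sqrt N) + (1 + 3 * (N : ℝ) ^ (22 / 25 : ℝ)) ≤ N / L ^ 3 := by
    have h2 : (D : ℝ) * Nat.sqrt N ≤ W * (N : ℝ) ^ (99 / 100 : ℝ) := by
      calc (D : ℝ) * Nat.sqrt N ≤ (W * (N : ℝ) ^ (49 / 100 : ℝ)) * (N : ℝ) ^ (1 / 2 : ℝ) :=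
            mul_le_mul hDR hsq (by positivity) (by positivity)
        _ = W * ((N : ℝ) ^ (49 / 100 : ℝ) * (N : ℝ) ^ (1 / 2 : ℝ)) := by ring
        _ = _ := by rw [← Real.rpow_add hN0]; norm_num
    have h3 : (N : ℝ) ^ (22 / 25 : ℝ) ≤ (N : ℝ) ^ (99 / 100 : ℝ) :=
      Real.rpow_le_rpow_of_exponent_le hN1 (by norm_num)
    have h31 : (1 : ℝ) ≤ (N : ℝ) ^ (99 / 100 : ℝ) := Real.one_le_rpow hN1 (by norm_num)
    have e4 : L ^ (4 : ℝ) = L ^ 4 := by
      rw [show (4 : ℝ) = ((4 : ℕ) : ℝ) by norm_num, Real.rpow_natCast]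
    rw [e4] at g4
    have hp99 : 0 < (N : ℝ) ^ (99 / 100 : ℝ) := by positivity
    have h4 : (10 * W + 4) * L ^ 4 * (N : ℝ) ^ (99 / 100 : ℝ) ≤ N := by
      calc (10 * W + 4) * L ^ 4 * (N : ℝ) ^ (99 / 100 : ℝ) ≤ (N : ℝ) ^ (1 / 100 : ℝ) * (N : ℝ) ^ (99 / 100 : ℝ) :=
            mul_le_mul_of_nonneg_right g4 hp99.le
        _ = N := by rw [← Real.rpow_add hN0]; norm_num
    rw [le_div_iff₀ (by positivity)]
    refine le_trans ?_ h4
    have h5 : 5 * Real.log X * (D * Nat.sqrt N) ≤ 5 * (2 * L) * (W * (N : ℝ) ^ (99 / 100 : ℝ)) :=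
      mul_le_mul (by linarith) h2 (by positivity) (by positivity)
    have h6 : 1 + 3 * (N : ℝ) ^ (22 / 25 : ℝ) ≤ 4 * L * (N : ℝ) ^ (99 / 100 : ℝ) := by
      have : (N : ℝ) ^ (99 / 100 : ℝ) ≤ L * (N : ℝ) ^ (99 / 100 : ℝ) := le_mul_of_one_le_left hp99.le g7
      linarith
    calc (5 * Real.log X * (D * Nat.sqrt N) + (1 + 3 * (N : ℝ) ^ (22 / 25 : ℝ))) * L ^ 3 ≤
        (5 * (2 * L) * (W * (N : ℝ) ^ (99 / 100 : ℝ)) + 4 * L * (N : ℝ) ^ (99 / 100 : ℝ)) * L ^ 3 :=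
          mul_le_mul_of_nonneg_right (by linarith) (by positivity)
      _ = _ := by ring
  have he3 : 0 ≤ (N : ℝ) / L ^ 3 := by positivity
  have e5 : 5 * Real.log X * (∑ e ∈ Icc 1 N, M e + D * Nat.sqrt N) =
      5 * Real.log X * ∑ e ∈ Icc 1 N, M e + 5 * Real.log X * (D * Nat.sqrt N) := by ring
  rw [e5] at hlow
  linarith

theorem t_GBL : S_GBL := by
  classical
  obtain ⟨c0, hc0, H0⟩ := rawG
  refine ⟨min 1 (c0 / 4), lt_min one_pos (by positivity), min_le_left _ _, fun w hw8 => ?_⟩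
  obtain ⟨W, hW⟩ : ∃ W, W = Uni.WW w := ⟨_, rfl⟩
  have hWpos : 0 < W := by rw [hW]; exact Uni.WW_pos w
  have hφ0 : (0 : ℝ) < Nat.totient W := by exact_mod_cast Nat.totient_pos.2 hWpos
  obtain ⟨N1, hN1⟩ := H0 w (by omega)
  have tN : Tendsto (fun N : ℕ => (N : ℝ)) atTop atTop := tendsto_natCast_atTop_atTop
  obtain ⟨N₀, hN₀⟩ := eventually_atTop.1 ((pi_lo (1 / 2) (by norm_num)).and
    ((tN.eventually (Real.tendsto_log_atTop.eventually_ge_atTop (max 1 (80 * Nat.totient W / c0)))).and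
    (eventually_ge_atTop (max N1 3))))
  refine ⟨N₀, fun N hN hNe ν hν hcop hcls => ?_⟩
  obtain ⟨g1, g3, g4⟩ := hN₀ N hN
  have hNN1 : N1 ≤ N := (le_max_left _ _).trans g4
  have hN3 : 3 ≤ N := (le_max_right _ _).trans g4
  set L := Real.log (N : ℝ) with hL
  have hL1 : 1 ≤ L := (le_max_left _ _).trans g3
  have hLW : 80 * Nat.totient W / c0 ≤ L := (le_max_right _ _).trans g3
  have hL0 : 0 < L := by linarith
  have hNpos : 0 < N := by omega
  have hN0 : (0 : ℝ) < N := by exact_mod_cast hNpos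
  have hmain := hN1 N hNN1 hNe ν hν hcop hcls
  rw [← hW, ← hL] at hmain
  rw [← hW]
  obtain ⟨Q, hQ⟩ : ∃ Q : ℝ, Q = ((W * N : ℕ) : ℝ) / Nat.totient (W * N) := ⟨_, rfl⟩
  rw [← hQ] at hmain ⊢
  have hX0 : 0 < W * N := Nat.mul_pos hWpos hNpos
  have hQ1 : 1 ≤ Q := by
    rw [hQ, le_div_iff₀ (by exact_mod_cast Nat.totient_pos.2 hX0), one_mul]
    exact_mod_cast Nat.totient_le _
  -- the number of primes
  have hpi : 1 / 2 * (N / L) ≤ H343E.pi1 N := by
    have h1 : ((pr N).card : ℝ) = H343E.pi1 N := by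
      unfold pr H343E.pi1
      rfl
    linarith
  obtain ⟨E, hE⟩ : ∃ E, E = N / L ^ 2 / Nat.totient W * Q := ⟨_, rfl⟩
  have hE0 : 0 ≤ E := by rw [hE]; positivity
  rw [← hE]
  have h1 : c0 / 2 * E ≤ H343E.pi1 N / Nat.totient W * (c0 / L * Q) := by
    calc c0 / 2 * E = (1 / 2 * (N / L)) / Nat.totient W * (c0 / L * Q) := by
          rw [hE]
          field_simp
      _ ≤ _ := by
          apply mul_le_mul_of_nonneg_right _ (by positivity)
          exact div_le_div_of_nonneg_right hpi hφ0.le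
  have h2 : 20 * ((N : ℝ) / L ^ 3) ≤ c0 / 4 * E := by
    have h3 : (N : ℝ) / L ^ 2 / Nat.totient W ≤ E := by
      rw [hE]
      exact le_mul_of_one_le_right (by positivity) hQ1
    refine le_trans ?_ (mul_le_mul_of_nonneg_left h3 (by positivity))
    rw [div_le_iff₀ hc0] at hLW
    have e1 : 20 * ((N : ℝ) / L ^ 3) = (N / L ^ 3) * 20 := by ring
    have e2 : c0 / 4 * ((N : ℝ) / L ^ 2 / Nat.totient W) = N / L ^ 3 * (L * c0 / (4 * Nat.totient W)) := by
      field_simp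
    rw [e1, e2]
    apply mul_le_mul_of_nonneg_left _ (by positivity)
    rw [le_div_iff₀ (by positivity)]
    linarith
  have h3 : min 1 (c0 / 4) * E ≤ c0 / 4 * E := mul_le_mul_of_nonneg_right (min_le_right _ _) hE0
  linarith

end Pool.Agent.L0h10.GE
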