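import Pool.Agent.L0h43.TF.Stm
import Pool.Agent.H305R2.MertensE

/-!
# Project GE, module MAV: averages of the local factors for a shift `t ≡ -M`
-/

set_option autoImplicit false

namespace Pool.Agent.L0h10.GE

open Finset Filter Topology Pool.Agent.H387R2 Pool.Agent.H386R2.HL
open Pool.Agent.L0h43.TA Pool.Agent.L0h43.TB Pool.Agent.L0h43.TF

/-- the product of Mertens -/
noncomputable def PM (y : ℕ) : ℝ := ∏ p ∈ (Finset.Icc 1 y).filter Nat.Prime, (1 - (p : ℝ)⁻¹)⁻¹

/-- the small primes on average -/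
lemma small_avg2 {W w J : ℕ} (hW1 : 0 < W) (hW : ∀ p : ℕ, p.Prime → (p ∣ W ↔ p ≤ w)) (hw : 1 ≤ w)
    (r y ν u H t : ℕ) :
    ∑ h ∈ Jv W ν u H, ∏ p ∈ ((Pw w J).filter (fun p => p ≤ y)).filter (fun p => p ∣ ds h t), cf p ^ r ≤
      Nat.totient W * (H / W * Real.exp (2 ^ (r + 1) / w) + PM y ^ r) := by
  classical
  set S := (Pw w J).filter (fun p => p ≤ y) with hS
  set c : ℕ → ℝ := fun p => cf p ^ r - 1 with hc
  have hSp : ∀ p ∈ S, p.Prime := fun p hp => Pw_prime (mem_filter.1 hp).1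
  have hc0 : ∀ p ∈ S, 0 ≤ c p := by
    intro p hp
    have := one_le_pow₀ (cf_ge_one (hSp p hp)) (n := r)
    rw [hc]; simp only; linarith
  have h1 : ∀ h ∈ Jv W ν u H, ∏ p ∈ S.filter (fun p => p ∣ ds h t), cf p ^ r =
      ∑ D ∈ S.powerset, (∏ p ∈ D, c p) * (if ∀ p ∈ D, p ∣ ds h t then 1 else 0) := by
    intro h _
    rw [← prod_exp]
    apply prod_congr rfl
    intro p _
    rw [hc]; ring
  rw [sum_congr rfl h1, sum_comm]
  have h2 : ∀ D ∈ S.powerset, ∑ h ∈ Jv W ν u H, (∏ p ∈ D, c p) * (if ∀ p ∈ D, p ∣ ds h t then (1 : ℝ) else 0) ≤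
      (∏ p ∈ D, c p) * (Nat.totient W * (H / (W * pd D) + 1)) := by
    intro D hD
    rw [mem_powerset] at hD
    rw [← mul_sum]
    apply mul_le_mul_of_nonneg_left _ (prod_nonneg fun p hp => hc0 p (hD hp))
    rw [sum_boole]
    exact Jv_dvd hW1 hW (hD.trans (filter_subset _ _)) ν u H t
  refine (sum_le_sum h2).trans ?_
  have h3 : ∑ D ∈ S.powerset, (∏ p ∈ D, c p) * (Nat.totient W * ((H : ℝ) / (W * pd D) + 1)) =
      Nat.totient W * (H / W * ∏ p ∈ S, (1 + c p / p) + ∏ p ∈ S, (1 + c p)) := by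
    rw [prod_one_add, prod_one_add, mul_sum, ← sum_add_distrib, mul_sum]
    apply sum_congr rfl
    intro D _
    unfold pd
    rw [prod_div_distrib, mul_comm (W : ℝ), ← div_div]
    ring
  rw [h3]
  apply mul_le_mul_of_nonneg_left _ (Nat.cast_nonneg _)
  have hW0 : (0 : ℝ) < W := by exact_mod_cast hW1
  apply add_le_add
  · apply mul_le_mul_of_nonneg_left _ (by positivity)
    have h4 : ∏ p ∈ S, (1 + c p / p) ≤ ∏ p ∈ S, Real.exp (2 ^ (r + 1) * ((p : ℝ) ^ 2)⁻¹) := by
      apply Finset.prod_le_prod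
      · intro p hp
        have := hc0 p hp
        positivity
      · intro p hp
        have h5 := cf_le (hSp p hp)
        have hp2 : (2 : ℝ) ≤ p := by exact_mod_cast (hSp p hp).two_le
        have hp0 : (0 : ℝ) < p := by linarith
        have h6 : cf p ^ r ≤ 1 + 2 ^ r * (2 / p) := by
          refine (pow_le_pow_left₀ (by linarith [cf_ge_one (hSp p hp)]) h5 r).trans ?_
          apply pow_lin r (by positivity)
          rw [div_le_one hp0]; exact hp2
        have h7 : c p / p ≤ 2 ^ (r + 1) * ((p : ℝ) ^ 2)⁻¹ := by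
          rw [div_le_iff₀ hp0]
          have e : 2 ^ (r + 1) * ((p : ℝ) ^ 2)⁻¹ * p = 2 ^ r * (2 / p) := by
            field_simp
            ring
          rw [e, hc]
          simp only
          linarith
        have h8 := Real.add_one_le_exp (2 ^ (r + 1) * ((p : ℝ) ^ 2)⁻¹)
        linarith
    refine h4.trans ?_
    rw [← Real.exp_sum, ← mul_sum]
    apply Real.exp_le_exp.2
    have h5 := Pool.Agent.Helper22K9.Trp.sum_inv_sq_gt hw S (fun p hp => Pw_gt (mem_filter.1 hp).1)
    calc 2 ^ (r + 1) * ∑ p ∈ S, ((p : ℝ) ^ 2)⁻¹ ≤ 2 ^ (r + 1) * (1 / w) :=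
          mul_le_mul_of_nonneg_left h5 (by positivity)
      _ = _ := by ring
  · have h4 : ∏ p ∈ S, (1 + c p) = (∏ p ∈ S, cf p) ^ r := by
      rw [← prod_pow]
      apply prod_congr rfl
      intro p _
      rw [hc]; ring
    rw [h4]
    apply pow_le_pow_left₀ (prod_nonneg fun p hp => by linarith [cf_ge_one (hSp p hp)])
    have h5 : S ⊆ (Finset.Icc 1 y).filter Nat.Prime := by
      intro p hp
      rw [mem_filter, mem_Icc]
      exact ⟨⟨(hSp p hp).one_lt.le, (mem_filter.1 hp).2⟩, hSp p hp⟩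
    have e : PM y = ∏ p ∈ (Finset.Icc 1 y).filter Nat.Prime, cf p := by
      unfold PM cf
      apply prod_congr rfl
      intro p _
      rw [one_div]
    rw [e, ← prod_sdiff h5]
    have h7 : 1 ≤ ∏ p ∈ (Finset.Icc 1 y).filter Nat.Prime \ S, cf p := by
      apply one_le_prodR
      intro p hp
      exact cf_ge_one (mem_filter.1 (mem_sdiff.1 hp).1).2
    exact le_mul_of_one_le_left (prod_nonneg fun p hp => by linarith [cf_ge_one (hSp p hp)]) h7

lemma PM_tendsto (r : ℕ) : Tendsto (fun D : ℕ => PM D ^ r / (D : ℝ)) atTop (𝓝 0) := by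
  have tD : Tendsto (fun D : ℕ => (D : ℝ)) atTop atTop := tendsto_natCast_atTop_atTop
  have h1 := (Pool.Agent.H305R2.mertens_three).pow r
  have h2 : Tendsto (fun D : ℕ => Real.log (D : ℝ) ^ r / (D : ℝ)) atTop (𝓝 0) :=
    ((Real.isLittleO_pow_log_id_atTop (n := r)).tendsto_div_nhds_zero).comp tD
  have h3 := h1.mul h2
  rw [mul_zero] at h3
  refine h3.congr' ?_
  filter_upwards [eventually_ge_atTop 3] with D hD
  have hD3 : (3 : ℝ) ≤ D := by exact_mod_cast hD
  have hL : 0 < Real.log (D : ℝ) := Real.log_pos (by linarith)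
  unfold PM
  rw [div_pow]
  field_simp

theorem t_MAV : S_MAV := by
  classical
  intro r δ hδ
  obtain ⟨w0, hw0⟩ : ∃ w0 : ℕ, ∀ w : ℕ, w0 ≤ w → Real.exp (2 ^ (r + 1) / (w : ℝ)) ≤ 1 + δ / 2 := by
    have t1 : Tendsto (fun w : ℕ => Real.exp (2 ^ (r + 1) / (w : ℝ))) atTop (𝓝 (Real.exp 0)) :=
      (Real.continuous_exp.tendsto 0).comp (tendsto_natCast_atTop_atTop.const_div_atTop _)
    have h1 : Real.exp 0 < 1 + δ / 2 := by rw [Real.exp_zero]; linarith
    obtain ⟨w0, h2⟩ := eventually_atTop.1 (t1.eventually_lt_const h1)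
    exact ⟨w0, fun w hw => (h2 w hw).le⟩
  refine ⟨max w0 1, le_max_right _ _, ?_⟩
  intro w hw W hW1 hW C0 hC0
  have hE := hw0 w ((le_max_left _ _).trans hw)
  have hw1 : 1 ≤ w := (le_max_right _ _).trans hw
  set E := Real.exp (2 ^ (r + 1) / (w : ℝ)) with hEdef
  have hW0 : (0 : ℝ) < W := by exact_mod_cast hW1
  have tD : Tendsto (fun D : ℕ => (D : ℝ)) atTop atTop := tendsto_natCast_atTop_atTop
  have tL : Tendsto (fun D : ℕ => Real.log (D : ℝ)) atTop atTop := Real.tendsto_log_atTop.comp tD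
  have t1 : Tendsto (fun D : ℕ => Real.exp (2 * C0 / Real.log (D : ℝ)) ^ r) atTop
      (𝓝 (Real.exp 0 ^ r)) := by
    apply Tendsto.pow
    exact (Real.continuous_exp.tendsto 0).comp (tL.const_div_atTop _)
  have t2 := PM_tendsto r
  have t3 : Tendsto (fun D : ℕ => (2 : ℝ) / (D : ℝ)) atTop (𝓝 0) := tD.const_div_atTop 2
  have t4 : Tendsto (fun D : ℕ => Real.exp (2 * C0 / Real.log (D : ℝ)) ^ r *
      (E + PM D ^ r / (D : ℝ) * W) + 2 / (D : ℝ) * W) atTop (𝓝 (Real.exp 0 ^ r * (E + 0 * W) + 0 * W)) :=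
    (t1.mul ((t2.mul_const _).const_add _)).add (t3.mul_const _)
  have h1 : Real.exp 0 ^ r * (E + 0 * W) + 0 * W < 1 + δ := by
    rw [Real.exp_zero, one_pow]; linarith
  obtain ⟨H0, hH0⟩ := eventually_atTop.1 ((t4.eventually_lt_const h1).and (eventually_ge_atTop 2))
  refine ⟨H0, ?_⟩
  intro H hH J ν u t M hM ht hd
  obtain ⟨h2, h3⟩ := hH0 H hH
  have hH2 : (2 : ℝ) ≤ H := by exact_mod_cast h3
  have hHpos : (0 : ℝ) < H := by linarith
  have hL0 : 0 < Real.log (H : ℝ) := Real.log_pos (by linarith)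
  set K := Real.exp (2 * C0 / Real.log H) with hK
  have hK1 : 1 ≤ K := Real.one_le_exp (by positivity)
  -- the primes dividing the distance
  have hdv : ∀ h p, p ∈ Pw w J → (p ∣ ds h t ↔ p ∣ M + h) := by
    intro h p hp
    have h5 := ht p hp
    rw [ds_dvd]
    constructor
    · intro h6
      have h7 : M + h ≡ M + t [MOD p] := Nat.ModEq.add_left M h6
      have h8 : p ∣ M + t := by rw [add_comm]; exact h5
      exact (Nat.modEq_zero_iff_dvd.1 (h7.trans (Nat.modEq_zero_iff_dvd.2 h8)))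
    · intro h6
      have h8 : p ∣ M + t := by rw [add_comm]; exact h5
      have h7 : M + h ≡ M + t [MOD p] :=
        (Nat.modEq_zero_iff_dvd.2 h6).trans (Nat.modEq_zero_iff_dvd.2 h8).symm
      exact Nat.ModEq.add_left_cancel' M h7
  have hmm : ∀ h, mm w J r (ds h t) = mm w J r (M + h) := by
    intro h
    unfold mm
    apply prod_congr _ (fun _ _ => rfl)
    apply filter_congr
    intro p hp
    exact hdv h p hp
  set Rf := (Jv W ν u H).filter (fun h => h ≠ t) with hRf
  have h5 : ∀ h ∈ Rf, mm w J r (ds h t) ≤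
      (∏ p ∈ ((Pw w J).filter (fun p => p ≤ H)).filter (fun p => p ∣ ds h t), cf p ^ r) * K ^ r := by
    intro h hh
    rw [hRf, mem_filter] at hh
    have hd1 : 1 ≤ M + h := by omega
    have hI : h ∈ Ioc u (u + H) := by
      have := hh.1
      unfold Jv at this
      exact (mem_filter.1 this).1
    rw [hmm]
    have e1 : ((Pw w J).filter (fun p => p ≤ H)).filter (fun p => p ∣ ds h t) =
        ((Pw w J).filter (fun p => p ≤ H)).filter (fun p => p ∣ M + h) := by
      apply filter_congr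
      intro p hp
      exact hdv h p (mem_filter.1 hp).1
    rw [e1]
    refine (mm_le w J r H hd1).trans ?_
    apply mul_le_mul_of_nonneg_left
    · apply pow_le_pow_left₀ (zero_le_one.trans (one_le_tt _ _))
      refine (Uni.tt_le H (M + h) h3 hd1).trans (Real.exp_le_exp.2 ?_)
      rw [div_le_div_iff₀ (by positivity) hL0]
      have h7 := hd h hI
      calc 2 * Real.log ((M + h : ℕ) : ℝ) * Real.log H ≤ 2 * (C0 * H) * Real.log H := by
            apply mul_le_mul_of_nonneg_right _ hL0.le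
            linarith
        _ = 2 * C0 * (H * Real.log H) := by ring
    · apply prod_nonneg
      intro p hp
      have := cf_ge_one (Pw_prime (mem_filter.1 (mem_filter.1 hp).1).1)
      positivity
  have h6 := small_avg2 (J := J) hW1 hW hw1 r H ν u H t
  have h7 : ∑ h ∈ Rf, mm w J r (ds h t) ≤ (Nat.totient W * (H / W * E + PM H ^ r)) * K ^ r := by
    refine (sum_le_sum h5).trans ?_
    rw [← sum_mul]
    apply mul_le_mul_of_nonneg_right _ (by positivity)
    refine le_trans ?_ h6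
    apply sum_le_sum_of_subset_of_nonneg (filter_subset _ _)
    intro h _ _
    apply prod_nonneg
    intro p hp
    have := cf_ge_one (Pw_prime (mem_filter.1 (mem_filter.1 hp).1).1)
    positivity
  have hφ1 : (1 : ℝ) ≤ Nat.totient W := by exact_mod_cast Nat.totient_pos.2 hW1
  have h8 : (Nat.totient W : ℝ) * (H / W - 1) - 1 ≤ (Rf.card : ℝ) := by
    have h9 := cop_low W ν u H hW1
    have h10 : (Jv W ν u H).card ≤ Rf.card + 1 := by
      have h11 : Jv W ν u H ⊆ insert t Rf := by
        intro h hh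
        rw [mem_insert, hRf, mem_filter]
        by_cases e : h = t
        · left; exact e
        · right; exact ⟨hh, e⟩
      exact (card_le_card h11).trans (card_insert_le _ _)
    have h12 : ((Jv W ν u H).card : ℝ) ≤ (Rf.card : ℝ) + 1 := by exact_mod_cast h10
    unfold Jv at h12
    linarith
  rw [sum_sub_distrib, sum_const, nsmul_eq_mul, mul_one]
  have h9 : (Nat.totient W * (H / W * E + PM H ^ r)) * K ^ r - (Nat.totient W * (H / W - 1) - 1) ≤
      δ * ((Nat.totient W : ℝ) / W * H) := by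
    have h11 : K ^ r * (E + PM H ^ r / H * W) + 2 / H * W ≤ 1 + δ := h2.le
    have h12 := mul_le_mul_of_nonneg_left h11 (show 0 ≤ (Nat.totient W : ℝ) / W * H by positivity)
    have e1 : (Nat.totient W : ℝ) / W * H * (K ^ r * (E + PM H ^ r / H * W) + 2 / H * W) =
        (Nat.totient W * (H / W * E + PM H ^ r)) * K ^ r + 2 * Nat.totient W := by
      field_simp
    rw [e1] at h12
    have e2 : (Nat.totient W : ℝ) / W * H * (1 + δ) = Nat.totient W * (H / W) + δ * ((Nat.totient W : ℝ) / W * H) := by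
      ring
    rw [e2] at h12
    have e3 : (Nat.totient W : ℝ) * (H / W - 1) - 1 = Nat.totient W * (H / W) - Nat.totient W - 1 := by ring
    rw [e3]
    linarith
  linarith

end Pool.Agent.L0h10.GE
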